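import Mathlib

/-!
# MP_88a444 : BPBp-RSE for compact operators from an `ℓ₁`-predual forces uniform convexity

Let `X* ≡ ℓ₁` with coordinate functionals `e_m*`.  Every `x ∈ S_X` has `|e_m*(x)| = 1` for some
`m`, so by Baire's theorem there are `x₀ ∈ S_X`, `r > 0` and `m` with `|e_m*| = 1` on the unit
vectors in `B(x₀, r)`.  Hence `‖x₁ + u‖ = 1` for unit vectors `x₁` near `x₀` and small
`u ∈ ker e_m*`, and an RSE operator attaining its norm near `x₀` must vanish on `ker e_m*`.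
Testing this on the operators `e_m* ⊗ y₀ + e_k* ⊗ y₁` gives the (complex) uniform convexity of `Y`.
-/

namespace Pool.Agent.Results.MP_88a444_an.PredualConvexity

open Filter Topology
open scoped ENNReal

universe u v

section defs

variable {𝕜 : Type} [RCLike 𝕜] {X : Type u} {Y : Type v} [NormedAddCommGroup X] [NormedSpace 𝕜 X]
  [NormedAddCommGroup Y] [NormedSpace 𝕜 Y]

/-- `T` is range strongly exposing. -/
def RSE (T : X →L[𝕜] Y) : Prop :=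
  ∃ x₀ : X, ‖x₀‖ = 1 ∧ ∀ x : ℕ → X, (∀ n, ‖x n‖ ≤ 1) →
    Tendsto (fun n => ‖T (x n)‖) atTop (𝓝 ‖T‖) →
    ∃ σ : ℕ → ℕ, StrictMono σ ∧ ∃ c : 𝕜, ‖c‖ = 1 ∧
      Tendsto (fun n => T (x (σ n))) atTop (𝓝 (c • T x₀))

variable (𝕜 X Y)

/-- The space of compact operators from `X` to `Y` has the BPBp-RSE. -/
def CompactBPBpRSE : Prop :=
  ∀ ε : ℝ, 0 < ε → ∃ η : ℝ, 0 < η ∧ η < ε ∧
    ∀ (T : X →L[𝕜] Y) (x : X), IsCompactOperator T → ‖T‖ = 1 → ‖x‖ = 1 → 1 - η < ‖T x‖ →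
      ∃ (S : X →L[𝕜] Y) (x₀ : X), RSE S ∧ IsCompactOperator S ∧ ‖x₀‖ = 1 ∧ ‖S‖ = 1 ∧
        ‖S x₀‖ = 1 ∧ ‖S - T‖ < ε ∧ ‖x - x₀‖ < ε

/-- `X` is an `ℓ₁`-predual: its dual is isometrically isomorphic to `ℓ₁`. -/
def IsL1Predual : Prop :=
  Nonempty ((X →L[𝕜] 𝕜) ≃ₗᵢ[𝕜] lp (fun _ : ℕ => 𝕜) 1)

end defs

/-- Uniform convexity. -/
def UniformlyConvex (Y : Type v) [NormedAddCommGroup Y] : Prop :=
  ∀ ε : ℝ, 0 < ε → ∃ δ : ℝ, 0 < δ ∧ δ < 1 ∧ ∀ y₁ y₂ : Y, ‖y₁‖ = 1 → ‖y₂‖ = 1 →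
    1 - δ < ‖y₁ + y₂‖ / 2 → ‖y₁ - y₂‖ < ε

/-- `ℂ`-uniform convexity. -/
def CUniformlyConvex (Y : Type v) [NormedAddCommGroup Y] [NormedSpace ℂ Y] : Prop :=
  ∀ ε : ℝ, 0 < ε → ∃ δ : ℝ, 0 < δ ∧ ∀ y₀ y₁ : Y, (∀ w : ℂ, ‖w‖ = 1 → ‖y₀ + w • y₁‖ ≤ 1) →
    ε < ‖y₁‖ → ‖y₀‖ < 1 - δ

section rse

variable {𝕜 : Type} [RCLike 𝕜] {X : Type u} {Y : Type v} [NormedAddCommGroup X] [NormedSpace 𝕜 X]
  [NormedAddCommGroup Y] [NormedSpace 𝕜 Y]

/-- All norm attaining vectors of an RSE operator are mapped to multiples of one vector. -/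
theorem RSE.exists_eq {S : X →L[𝕜] Y} (hS : RSE S) (hn : ‖S‖ = 1) :
    ∃ y : Y, ∀ x : X, ‖x‖ ≤ 1 → ‖S x‖ = 1 → ∃ c : 𝕜, ‖c‖ = 1 ∧ S x = c • y := by
  obtain ⟨x₀, hx₀, H⟩ := hS
  refine ⟨S x₀, fun x hx hSx => ?_⟩
  obtain ⟨σ, -, c, hc, hlim⟩ := H (fun _ => x) (fun _ => hx) (by
    simp only [hSx, hn]; exact tendsto_const_nhds)
  exact ⟨c, hc, tendsto_nhds_unique tendsto_const_nhds hlim⟩

/-- If `x₁ + u` and `x₁ - u` are in the unit ball and the RSE operator `S` attains its norm at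
`x₁` then `S u = 0`. -/
theorem RSE.apply_eq_zero {S : X →L[𝕜] Y} (hS : RSE S) (hn : ‖S‖ = 1) {x₁ u : X}
    (h0 : ‖x₁‖ ≤ 1) (h1 : ‖x₁ + u‖ ≤ 1) (h2 : ‖x₁ - u‖ ≤ 1) (hx₁ : ‖S x₁‖ = 1) : S u = 0 := by
  obtain ⟨y, hy⟩ := hS.exists_eq hn
  have hne : S x₁ ≠ 0 := by
    intro h; rw [h, norm_zero] at hx₁; exact zero_ne_one hx₁
  obtain ⟨φ, hφ, hφx⟩ := exists_dual_vector 𝕜 (S x₁) (norm_ne_zero_iff.2 hne)
  have hle : ∀ x : X, ‖x‖ ≤ 1 → ‖φ (S x)‖ ≤ ‖S x‖ ∧ ‖S x‖ ≤ 1 := by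
    intro x hx
    constructor
    · calc ‖φ (S x)‖ ≤ ‖φ‖ * ‖S x‖ := φ.le_opNorm _
        _ = ‖S x‖ := by rw [hφ, one_mul]
    · calc ‖S x‖ ≤ ‖S‖ * ‖x‖ := S.le_opNorm _
        _ ≤ 1 * 1 := by rw [hn]; gcongr
        _ = 1 := one_mul 1
  obtain ⟨ha1, ha2⟩ := hle _ h1
  obtain ⟨hb1, hb2⟩ := hle _ h2
  have hφ1 : φ (S x₁) = 1 := by rw [hφx, hx₁]; simp
  have hsum : φ (S (x₁ + u)) + φ (S (x₁ - u)) = 2 := by
    rw [← map_add, ← map_add]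
    have : x₁ + u + (x₁ - u) = (2 : 𝕜) • x₁ := by rw [two_smul]; abel
    rw [this, map_smul, map_smul, hφ1, smul_eq_mul, mul_one]
  have hre : RCLike.re (φ (S (x₁ + u))) + RCLike.re (φ (S (x₁ - u))) = 2 := by
    rw [← map_add, hsum]; simp
  have hra : RCLike.re (φ (S (x₁ + u))) ≤ ‖φ (S (x₁ + u))‖ := RCLike.re_le_norm _
  have hrb : RCLike.re (φ (S (x₁ - u))) ≤ ‖φ (S (x₁ - u))‖ := RCLike.re_le_norm _
  have hnorm : ‖φ (S (x₁ + u))‖ = 1 := by linarith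
  have hre1 : RCLike.re (φ (S (x₁ + u))) = 1 := by linarith
  have hval : φ (S (x₁ + u)) = 1 := by
    have h3 := RCLike.re_eq_self_of_le (a := φ (S (x₁ + u))) (by rw [hre1, hnorm])
    rw [← h3, hre1]; simp
  obtain ⟨c, hc, hcy⟩ := hy (x₁ + u) h1 (by linarith)
  obtain ⟨d, hd, hdy⟩ := hy x₁ h0 hx₁
  have hc0 : c * φ y = 1 := by rw [← smul_eq_mul, ← map_smul, ← hcy, hval]
  have hd0 : d * φ y = 1 := by rw [← smul_eq_mul, ← map_smul, ← hdy, hφ1]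
  have hφy : φ y ≠ 0 := by
    intro h; rw [h, mul_zero] at hc0; exact zero_ne_one hc0
  have hcd : c = d := mul_right_cancel₀ hφy (hc0.trans hd0.symm)
  have h5 : S (x₁ + u) = S x₁ := by rw [hcy, hdy, hcd]
  rw [map_add] at h5
  simpa using h5

end rse

section predual

variable {𝕜 : Type} [RCLike 𝕜] {X : Type u} {Y : Type v} [NormedAddCommGroup X] [NormedSpace 𝕜 X]
  [NormedAddCommGroup Y] [NormedSpace 𝕜 Y]

instance : Fact ((1 : ℝ≥0∞) ≤ 1) := ⟨le_rfl⟩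

variable (e : (X →L[𝕜] 𝕜) ≃ₗᵢ[𝕜] lp (fun _ : ℕ => 𝕜) 1)

/-- The functional corresponding to the `m`-th unit vector of `ℓ₁`. -/
noncomputable def estar (m : ℕ) : X →L[𝕜] 𝕜 := e.symm (lp.single 1 m (1 : 𝕜))

theorem norm_estar (m : ℕ) : ‖estar e m‖ = 1 := by
  rw [estar, LinearIsometryEquiv.norm_map, lp.norm_single (by norm_num)]; simp

theorem norm_estar_apply_le (m : ℕ) (x : X) : ‖estar e m x‖ ≤ ‖x‖ := by
  calc ‖estar e m x‖ ≤ ‖estar e m‖ * ‖x‖ := (estar e m).le_opNorm x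
    _ = ‖x‖ := by rw [norm_estar, one_mul]

theorem symm_single (m : ℕ) (c : 𝕜) : e.symm (lp.single 1 m c) = c • estar e m := by
  rw [estar, ← map_smul]
  congr 1
  have := lp.single_smul (E := fun _ : ℕ => 𝕜) 1 m c (1 : 𝕜)
  rw [smul_eq_mul, mul_one] at this
  exact this

theorem hasSum_apply (g : X →L[𝕜] 𝕜) (x : X) :
    HasSum (fun m => (e g) m * estar e m x) (g x) := by
  have h1 := lp.hasSum_single (p := 1) ENNReal.one_ne_top (e g)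
  have h2 := (e.symm.toContinuousLinearEquiv.toContinuousLinearMap).hasSum h1
  have h3 := (ContinuousLinearMap.apply 𝕜 𝕜 x).hasSum h2
  have h4 : (ContinuousLinearMap.apply 𝕜 𝕜 x)
      ((e.symm.toContinuousLinearEquiv.toContinuousLinearMap) (e g)) = g x := by
    change (e.symm (e g)) x = g x
    rw [e.symm_apply_apply]
  rw [h4] at h3
  have h5 : (fun m => (e g) m * estar e m x) = fun m => (ContinuousLinearMap.apply 𝕜 𝕜 x)
      ((e.symm.toContinuousLinearEquiv.toContinuousLinearMap) (lp.single 1 m ((e g) m))) := by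
    funext m
    change (e g) m * estar e m x = (e.symm (lp.single 1 m ((e g) m))) x
    rw [symm_single]; rfl
  rw [h5]
  exact h3

/-- Every unit vector is normed by one of the coordinate functionals. -/
theorem exists_coord {x : X} (hx : ‖x‖ = 1) : ∃ m, ‖estar e m x‖ = 1 := by
  by_contra hcon
  push Not at hcon
  have hlt : ∀ m, ‖estar e m x‖ < 1 := fun m =>
    lt_of_le_of_ne (by rw [← hx]; exact norm_estar_apply_le e m x) (hcon m)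
  obtain ⟨g, hg, hgx⟩ := exists_dual_vector 𝕜 x (by rw [hx]; exact one_ne_zero)
  have hgx1 : g x = 1 := by rw [hgx, hx]; simp
  have hsum := hasSum_apply e g x
  have hnorm : HasSum (fun m => ‖(e g) m‖) 1 := by
    have := lp.hasSum_norm (p := 1) (by norm_num) (e g)
    rw [e.norm_map, hg] at this
    simpa using this
  obtain ⟨m₀, hm₀⟩ : ∃ m₀, (e g) m₀ ≠ 0 := by
    by_contra h
    push Not at h
    have h1 : HasSum (fun m => ‖(e g) m‖) 0 := by simpa [h] using hasSum_zero (α := ℝ) (β := ℕ)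
    exact one_ne_zero (hnorm.unique h1)
  have hle : ∀ m, ‖(e g) m * estar e m x‖ ≤ ‖(e g) m‖ := by
    intro m
    rw [norm_mul]
    calc ‖(e g) m‖ * ‖estar e m x‖ ≤ ‖(e g) m‖ * 1 := by
          gcongr; exact (hlt m).le
      _ = ‖(e g) m‖ := mul_one _
  have hlt' : ‖(e g) m₀ * estar e m₀ x‖ < ‖(e g) m₀‖ := by
    rw [norm_mul]
    calc ‖(e g) m₀‖ * ‖estar e m₀ x‖ < ‖(e g) m₀‖ * 1 :=
          mul_lt_mul_of_pos_left (hlt m₀) (norm_pos_iff.2 hm₀)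
      _ = ‖(e g) m₀‖ := mul_one _
  have hs : Summable fun m => ‖(e g) m * estar e m x‖ :=
    Summable.of_nonneg_of_le (fun _ => norm_nonneg _) hle hnorm.summable
  have h1 : ∑' m, ‖(e g) m * estar e m x‖ < ∑' m, ‖(e g) m‖ :=
    hs.tsum_lt_tsum hle hlt' hnorm.summable
  rw [hnorm.tsum_eq] at h1
  have h2 : ‖∑' m, (e g) m * estar e m x‖ ≤ ∑' m, ‖(e g) m * estar e m x‖ :=
    norm_tsum_le_tsum_norm hs
  rw [hsum.tsum_eq, hgx1, norm_one] at h2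
  linarith

/-- Baire's theorem: one coordinate functional norms all unit vectors near some `x₀`. -/
theorem exists_open [CompleteSpace X] : ∃ (x₀ : X) (r : ℝ) (m : ℕ), ‖x₀‖ = 1 ∧ 0 < r ∧
    ∀ x : X, ‖x‖ = 1 → ‖x - x₀‖ < r → ‖estar e m x‖ = 1 := by
  have hne : ∃ x : X, ‖x‖ = 1 := by
    obtain ⟨x, hx⟩ : ∃ x : X, estar e 0 x ≠ 0 := by
      by_contra h
      push Not at h
      have h1 : estar e 0 = 0 := by ext x; exact h x
      have h2 := norm_estar e 0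
      rw [h1, norm_zero] at h2
      exact zero_ne_one h2
    have hx0 : x ≠ 0 := by rintro rfl; exact hx (map_zero _)
    refine ⟨(‖x‖⁻¹ : 𝕜) • x, ?_⟩
    rw [norm_smul, norm_inv, RCLike.norm_ofReal, abs_norm,
      inv_mul_cancel₀ (norm_ne_zero_iff.2 hx0)]
  have : Nonempty (Metric.sphere (0 : X) 1) := by
    obtain ⟨x, hx⟩ := hne
    exact ⟨⟨x, by simpa using hx⟩⟩
  have : CompleteSpace (Metric.sphere (0 : X) 1) := Metric.isClosed_sphere.completeSpace_coe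
  obtain ⟨m, x₀, hx₀⟩ := nonempty_interior_of_iUnion_of_closed
    (X := Metric.sphere (0 : X) 1) (f := fun m : ℕ => {x | ‖estar e m (x : X)‖ = 1})
    (fun m => isClosed_eq (by fun_prop) continuous_const)
    (Set.eq_univ_of_forall fun x => Set.mem_iUnion.2 (by
      have hx : ‖(x : X)‖ = 1 := by simpa using x.2
      exact exists_coord e hx))
  rw [mem_interior_iff_mem_nhds, Metric.mem_nhds_iff] at hx₀
  obtain ⟨r, hr, H⟩ := hx₀
  refine ⟨x₀, r, m, by simpa using x₀.2, hr, fun x hx hxr => ?_⟩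
  have := @H ⟨x, by simpa using hx⟩ (by
    rw [Metric.mem_ball, Subtype.dist_eq, dist_eq_norm]; exact hxr)
  exact this

/-- Unit vectors near `x₀` can be moved a little along the kernel of `e_m*` in the unit ball. -/
theorem norm_add_le_one {x₀ : X} {r : ℝ} {m : ℕ}
    (H : ∀ x : X, ‖x‖ = 1 → ‖x - x₀‖ < r → ‖estar e m x‖ = 1) {x₁ u : X} (hx₁ : ‖x₁‖ = 1)
    (h1 : ‖x₁ - x₀‖ < r / 2) (hu : estar e m u = 0) (hur : ‖u‖ < r / 4) : ‖x₁ + u‖ ≤ 1 := by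
  have hr : 0 < r := by have := norm_nonneg u; linarith
  have h2 : estar e m (x₁ + u) = estar e m x₁ := by rw [map_add, hu, add_zero]
  have h3 : ‖estar e m x₁‖ = 1 := H x₁ hx₁ (by linarith)
  have h4 : 1 ≤ ‖x₁ + u‖ := by
    rw [← h3, ← h2]; exact norm_estar_apply_le e m _
  have h5 : ‖x₁ + u‖ ≤ 1 + ‖u‖ := by rw [← hx₁]; exact norm_add_le _ _
  set v := x₁ + u with hv
  have hv0 : ‖v‖ ≠ 0 := by linarith [norm_nonneg v]
  have h6 : ‖((‖v‖⁻¹ : ℝ) : 𝕜) • v‖ = 1 := by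
    rw [norm_smul, RCLike.norm_ofReal, abs_of_nonneg (inv_nonneg.2 (norm_nonneg v)),
      inv_mul_cancel₀ hv0]
  have h7 : ‖((‖v‖⁻¹ : ℝ) : 𝕜) • v - v‖ = ‖v‖ - 1 := by
    have : ((‖v‖⁻¹ : ℝ) : 𝕜) • v - v = ((‖v‖⁻¹ - 1 : ℝ) : 𝕜) • v := by
      push_cast; rw [sub_smul, one_smul]
    rw [this, norm_smul, RCLike.norm_ofReal, abs_of_nonpos, neg_sub, sub_mul, one_mul,
      inv_mul_cancel₀ hv0]
    rw [sub_nonpos]; exact inv_le_one_of_one_le₀ h4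
  have h8 : ‖((‖v‖⁻¹ : ℝ) : 𝕜) • v - x₀‖ < r := by
    have h9 : ((‖v‖⁻¹ : ℝ) : 𝕜) • v - x₀ = (((‖v‖⁻¹ : ℝ) : 𝕜) • v - v) + u + (x₁ - x₀) := by
      rw [hv]; abel
    rw [h9]
    calc ‖(((‖v‖⁻¹ : ℝ) : 𝕜) • v - v) + u + (x₁ - x₀)‖
        ≤ ‖((‖v‖⁻¹ : ℝ) : 𝕜) • v - v‖ + ‖u‖ + ‖x₁ - x₀‖ := norm_add₃_le
      _ < r := by rw [h7]; linarith
  have h10 := H _ h6 h8
  rw [map_smul, norm_smul, RCLike.norm_ofReal, abs_of_nonneg (inv_nonneg.2 (norm_nonneg v)), h2,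
    h3, mul_one] at h10
  have h11 : ‖v‖ = 1 := by rw [← inv_inv ‖v‖, h10, inv_one]
  exact h11.le

/-- RSE operators attaining their norm near `x₀` vanish on the kernel of `e_m*`. -/
theorem RSE.vanish {x₀ : X} {r : ℝ} {m : ℕ} (hr : 0 < r)
    (H : ∀ x : X, ‖x‖ = 1 → ‖x - x₀‖ < r → ‖estar e m x‖ = 1) {S : X →L[𝕜] Y} (hS : RSE S)
    (hn : ‖S‖ = 1) {x₁ : X} (hx₁ : ‖x₁‖ = 1) (hSx : ‖S x₁‖ = 1) (h1 : ‖x₁ - x₀‖ < r / 2)
    {u : X} (hu : estar e m u = 0) : S u = 0 := by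
  set t : ℝ := r / (8 * (‖u‖ + 1)) with ht
  have hu0 : 0 ≤ ‖u‖ := norm_nonneg u
  have htpos : 0 < t := by positivity
  have htu : ‖(t : 𝕜) • u‖ < r / 4 := by
    rw [norm_smul, RCLike.norm_ofReal, abs_of_pos htpos, ht, div_mul_eq_mul_div,
      div_lt_div_iff₀ (by positivity) (by norm_num)]
    nlinarith
  have h2 : estar e m ((t : 𝕜) • u) = 0 := by rw [map_smul, hu, smul_zero]
  have h3 := norm_add_le_one e H hx₁ h1 h2 htu
  have h4 : ‖x₁ - (t : 𝕜) • u‖ ≤ 1 := by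
    rw [sub_eq_add_neg]
    exact norm_add_le_one e H hx₁ h1 (by rw [map_neg, h2, neg_zero]) (by rwa [norm_neg])
  have h5 := RSE.apply_eq_zero hS hn hx₁.le h3 h4 hSx
  rw [map_smul] at h5
  rcases smul_eq_zero.1 h5 with h6 | h6
  · exact absurd (RCLike.ofReal_eq_zero.1 h6) htpos.ne'
  · exact h6

/-- There is a vector in the kernel of `e_m*` on which `e_{m+1}*` does not vanish. -/
theorem exists_kernel_vector (m : ℕ) : ∃ u : X, estar e m u = 0 ∧ estar e (m + 1) u ≠ 0 := by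
  by_contra hcon
  push Not at hcon
  obtain ⟨x, hx⟩ : ∃ x : X, estar e m x ≠ 0 := by
    by_contra h
    push Not at h
    have h1 : estar e m = 0 := by ext x; exact h x
    have h2 := norm_estar e m
    rw [h1, norm_zero] at h2
    exact zero_ne_one h2
  have h1 : estar e (m + 1) = (estar e (m + 1) x / estar e m x) • estar e m := by
    ext y
    have h2 := hcon (y - (estar e m y / estar e m x) • x) (by
      rw [map_sub, map_smul, smul_eq_mul, div_mul_cancel₀ _ hx, sub_self])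
    rw [map_sub, map_smul, smul_eq_mul, sub_eq_zero] at h2
    rw [h2, smul_apply, smul_eq_mul]
    field_simp
  have h2 : (lp.single 1 (m + 1) (1 : 𝕜) : lp (fun _ : ℕ => 𝕜) 1) =
      (estar e (m + 1) x / estar e m x) • lp.single 1 m (1 : 𝕜) := by
    have := congrArg e h1
    rw [map_smul, estar, estar, e.apply_symm_apply, e.apply_symm_apply] at this
    exact this
  have h3 := congrArg (fun z : lp (fun _ : ℕ => 𝕜) 1 => z (m + 1)) h2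
  simp only [lp.coeFn_smul, Pi.smul_apply] at h3
  rw [lp.single_apply_self, lp.single_apply_ne _ _ _ (by omega), smul_zero] at h3
  exact one_ne_zero h3

end predual

section convexity

variable {𝕜 : Type} [RCLike 𝕜] {X : Type u} {Y : Type v} [NormedAddCommGroup X] [NormedSpace 𝕜 X]
  [NormedAddCommGroup Y] [NormedSpace 𝕜 Y]

theorem exists_phase (t : 𝕜) : ∃ w : 𝕜, ‖w‖ = 1 ∧ t = (‖t‖ : 𝕜) * w := by
  by_cases ht : t = 0
  · exact ⟨1, norm_one, by simp [ht]⟩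
  · refine ⟨(‖t‖ : 𝕜)⁻¹ * t, ?_, ?_⟩
    · rw [norm_mul, norm_inv, RCLike.norm_ofReal, abs_norm,
        inv_mul_cancel₀ (norm_ne_zero_iff.2 ht)]
    · rw [← mul_assoc, mul_inv_cancel₀ (by simpa using ht), one_mul]

theorem norm_comb_le_one {a b : Y} {t : 𝕜} (ht : ‖t‖ ≤ 1)
    (h : ∀ w : 𝕜, ‖w‖ = 1 → ‖a + w • b‖ ≤ 1) : ‖a + t • b‖ ≤ 1 := by
  obtain ⟨w, hw, htw⟩ := exists_phase t
  have h1 := h w hw
  have h2 := h (-w) (by rwa [norm_neg])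
  have h3 : a + t • b = (((1 + ‖t‖) / 2 : ℝ) : 𝕜) • (a + w • b) +
      (((1 - ‖t‖) / 2 : ℝ) : 𝕜) • (a + (-w) • b) := by
    conv_lhs => rw [htw]
    push_cast
    module
  rw [h3]
  calc ‖(((1 + ‖t‖) / 2 : ℝ) : 𝕜) • (a + w • b) + (((1 - ‖t‖) / 2 : ℝ) : 𝕜) • (a + (-w) • b)‖
      ≤ ‖(((1 + ‖t‖) / 2 : ℝ) : 𝕜) • (a + w • b)‖ +
        ‖(((1 - ‖t‖) / 2 : ℝ) : 𝕜) • (a + (-w) • b)‖ := norm_add_le _ _
    _ = (1 + ‖t‖) / 2 * ‖a + w • b‖ + (1 - ‖t‖) / 2 * ‖a + (-w) • b‖ := by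
        rw [norm_smul, norm_smul, RCLike.norm_ofReal, RCLike.norm_ofReal,
          abs_of_nonneg (by positivity), abs_of_nonneg (by linarith)]
    _ ≤ (1 + ‖t‖) / 2 * 1 + (1 - ‖t‖) / 2 * 1 := by
        have h4 : 0 ≤ (1 - ‖t‖) / 2 := by linarith
        gcongr
    _ = 1 := by ring

theorem norm_comb₂_le_one {a b : Y} {s t : 𝕜} (hs : ‖s‖ ≤ 1) (ht : ‖t‖ ≤ 1)
    (h : ∀ w : 𝕜, ‖w‖ = 1 → ‖a + w • b‖ ≤ 1) : ‖s • a + t • b‖ ≤ 1 := by
  rw [add_comm]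
  refine norm_comb_le_one hs fun w hw => ?_
  have hw0 : w ≠ 0 := by rintro rfl; rw [norm_zero] at hw; exact zero_ne_one hw
  have h1 : t • b + w • a = w • (a + (w⁻¹ * t) • b) := by
    rw [smul_add, smul_smul, ← mul_assoc, mul_inv_cancel₀ hw0, one_mul, add_comm]
  rw [h1, norm_smul, hw, one_mul]
  refine norm_comb_le_one ?_ h
  rw [norm_mul, norm_inv, hw, inv_one, one_mul]; exact ht

theorem compact_smulRight (f : X →L[𝕜] 𝕜) (y : Y) : IsCompactOperator (f.smulRight y) := by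
  have h1 : IsCompactOperator ((ContinuousLinearMap.id 𝕜 𝕜).smulRight y) :=
    isCompactOperator_of_locallyCompactSpace_rng _
  exact h1.comp_clm f

theorem key [CompleteSpace X] (hX : IsL1Predual 𝕜 X) (h : CompactBPBpRSE 𝕜 X Y) (ε : ℝ)
    (hε : 0 < ε) : ∃ δ : ℝ, 0 < δ ∧ δ < 1 ∧ ∀ y₀ y₁ : Y,
      (∀ w : 𝕜, ‖w‖ = 1 → ‖y₀ + w • y₁‖ ≤ 1) → ε ≤ ‖y₁‖ → ‖y₀‖ < 1 - δ := by
  obtain ⟨e⟩ := hX
  obtain ⟨x₀, r, m, hx₀, hr, H⟩ := exists_open e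
  obtain ⟨u, hu, hu'⟩ := exists_kernel_vector e m
  have hupos : 0 < ‖estar e (m + 1) u‖ := norm_pos_iff.2 hu'
  have hu0 : 0 ≤ ‖u‖ := norm_nonneg u
  set ε' : ℝ := min (r / 2) (‖estar e (m + 1) u‖ * ε / (2 * (‖u‖ + 1))) with hε'
  have hε'pos : 0 < ε' := lt_min (by positivity) (by positivity)
  obtain ⟨η, hη, -, K⟩ := h ε' hε'pos
  refine ⟨min (η / 4) (1 / 4), lt_min (by positivity) (by norm_num),
    (min_le_right _ _).trans_lt (by norm_num), fun y₀ y₁ hy hy₁ => ?_⟩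
  by_contra hcon
  push Not at hcon
  set δ : ℝ := min (η / 4) (1 / 4) with hδ
  have hδη : δ ≤ η / 4 := min_le_left _ _
  have hδ4 : δ ≤ 1 / 4 := min_le_right _ _
  set T : X →L[𝕜] Y := (estar e m).smulRight y₀ + (estar e (m + 1)).smulRight y₁ with hT
  have hTa : ∀ x, T x = estar e m x • y₀ + estar e (m + 1) x • y₁ := fun x => rfl
  have hTle : ∀ x, ‖x‖ ≤ 1 → ‖T x‖ ≤ 1 := fun x hx => by
    rw [hTa]
    exact norm_comb₂_le_one ((norm_estar_apply_le e _ x).trans hx)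
      ((norm_estar_apply_le e _ x).trans hx) hy
  have hTn : ‖T‖ ≤ 1 := by
    refine T.opNorm_le_bound zero_le_one fun x => ?_
    by_cases hx : x = 0
    · rw [hx, map_zero, norm_zero, norm_zero, mul_zero]
    have hxn : 0 < ‖x‖ := norm_pos_iff.2 hx
    have h1 := hTle (((‖x‖⁻¹ : ℝ) : 𝕜) • x) (by
      rw [norm_smul, RCLike.norm_ofReal, abs_of_nonneg (inv_nonneg.2 hxn.le),
        inv_mul_cancel₀ hxn.ne'])
    rw [map_smul, norm_smul, RCLike.norm_ofReal, abs_of_nonneg (inv_nonneg.2 hxn.le),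
      inv_mul_le_iff₀ hxn] at h1
    linarith
  have hTx : 1 - 2 * δ ≤ ‖T x₀‖ := by
    have h1 : ‖estar e m x₀‖ = 1 := H x₀ hx₀ (by rw [sub_self, norm_zero]; exact hr)
    have h2 : ‖estar e m x₀ • y₀ + (-(estar e (m + 1) x₀)) • y₁‖ ≤ 1 :=
      norm_comb₂_le_one h1.le (by rw [norm_neg, ← hx₀]; exact norm_estar_apply_le e _ _) hy
    have h3 : (2 : 𝕜) • (estar e m x₀ • y₀) = T x₀ +
        (estar e m x₀ • y₀ + (-(estar e (m + 1) x₀)) • y₁) := by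
      rw [hTa]; module
    have h4 : ‖(2 : 𝕜) • (estar e m x₀ • y₀)‖ = 2 * ‖y₀‖ := by
      rw [norm_smul, norm_smul, h1, one_mul, RCLike.norm_ofNat]
    have h5 : 2 * ‖y₀‖ ≤ ‖T x₀‖ + 1 := by
      rw [← h4, h3]
      exact (norm_add_le _ _).trans (by linarith)
    linarith
  have hTx' : ‖T x₀‖ ≤ ‖T‖ := by
    calc ‖T x₀‖ ≤ ‖T‖ * ‖x₀‖ := T.le_opNorm _
      _ = ‖T‖ := by rw [hx₀, mul_one]
  have hTpos : 0 < ‖T‖ := by linarith
  have hninv : ‖((‖T‖⁻¹ : ℝ) : 𝕜)‖ = ‖T‖⁻¹ := by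
    rw [RCLike.norm_ofReal, abs_of_nonneg (inv_nonneg.2 hTpos.le)]
  have hinv1 : 1 ≤ ‖T‖⁻¹ := (one_le_inv₀ hTpos).2 hTn
  set T' : X →L[𝕜] Y := ((‖T‖⁻¹ : ℝ) : 𝕜) • T with hT'
  have hT'a : ∀ x, ‖T' x‖ = ‖T‖⁻¹ * ‖T x‖ := fun x => by
    rw [hT', smul_apply, norm_smul, hninv]
  have hT'n : ‖T'‖ = 1 := by
    rw [hT', norm_smul, hninv, inv_mul_cancel₀ hTpos.ne']
  have hT'c : IsCompactOperator T' := by
    have h1 : IsCompactOperator T := (compact_smulRight _ _).add (compact_smulRight _ _)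
    exact h1.smul _
  have hT'x : 1 - η < ‖T' x₀‖ := by
    rw [hT'a]
    have h1 : ‖T x₀‖ ≤ ‖T‖⁻¹ * ‖T x₀‖ := by
      nlinarith [norm_nonneg (T x₀)]
    linarith
  obtain ⟨S, x₁, hS, -, hx₁, hSn, hSx, hST, hxx⟩ := K T' x₀ hT'c hT'n hx₀ hT'x
  have h1 : S u = 0 := RSE.vanish e hr H hS hSn hx₁ hSx (by
    rw [norm_sub_rev]; exact hxx.trans_le (min_le_left _ _)) hu
  have h2 : ‖T' u‖ ≤ ε' * ‖u‖ := by
    have h3 : T' u = -((S - T') u) := by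
      rw [sub_apply, h1]; simp
    rw [h3, norm_neg]
    calc ‖(S - T') u‖ ≤ ‖S - T'‖ * ‖u‖ := (S - T').le_opNorm u
      _ ≤ ε' * ‖u‖ := by gcongr
  have h4 : ‖estar e (m + 1) u‖ * ε ≤ ‖T' u‖ := by
    rw [hT'a, hTa, hu, zero_smul, zero_add, norm_smul]
    calc ‖estar e (m + 1) u‖ * ε ≤ ‖estar e (m + 1) u‖ * ‖y₁‖ := by gcongr
      _ ≤ ‖T‖⁻¹ * (‖estar e (m + 1) u‖ * ‖y₁‖) :=
        le_mul_of_one_le_left (by positivity) hinv1
  have h5 : ε' * ‖u‖ ≤ ‖estar e (m + 1) u‖ * ε / 2 := by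
    have h6 : ε' ≤ ‖estar e (m + 1) u‖ * ε / (2 * (‖u‖ + 1)) := min_le_right _ _
    calc ε' * ‖u‖ ≤ ‖estar e (m + 1) u‖ * ε / (2 * (‖u‖ + 1)) * (‖u‖ + 1) := by
          gcongr; linarith
      _ = ‖estar e (m + 1) u‖ * ε / 2 := by field_simp
  have h7 : 0 < ‖estar e (m + 1) u‖ * ε := by positivity
  linarith

end convexity

theorem result :
    (∀ (X : Type u) (Y : Type v) [NormedAddCommGroup X] [NormedSpace ℝ X] [CompleteSpace X]
      [NormedAddCommGroup Y] [NormedSpace ℝ Y] [CompleteSpace Y],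
      IsL1Predual ℝ X → CompactBPBpRSE ℝ X Y → UniformlyConvex Y) ∧
    (∀ (X : Type u) (Y : Type v) [NormedAddCommGroup X] [NormedSpace ℂ X] [CompleteSpace X]
      [NormedAddCommGroup Y] [NormedSpace ℂ Y] [CompleteSpace Y],
      IsL1Predual ℂ X → CompactBPBpRSE ℂ X Y → CUniformlyConvex Y) := by
  refine ⟨?_, ?_⟩
  · intro X Y _ _ _ _ _ _ hX h ε hε
    obtain ⟨δ, hδ, hδ1, H⟩ := key hX h (ε / 2) (by linarith)
    refine ⟨δ, hδ, hδ1, fun y₁ y₂ h1 h2 h3 => ?_⟩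
    by_contra hcon
    push Not at hcon
    have h4 := H ((1 / 2 : ℝ) • (y₁ + y₂)) ((1 / 2 : ℝ) • (y₁ - y₂)) (fun w hw => ?_) ?_
    · rw [norm_smul, Real.norm_of_nonneg (by norm_num)] at h4
      linarith
    · have hw' : w = 1 ∨ w = -1 := by
        rw [Real.norm_eq_abs] at hw
        rcases abs_cases w with ⟨h5, _⟩ | ⟨h5, _⟩
        · left; linarith
        · right; linarith
      rcases hw' with rfl | rfl
      · have : (1 / 2 : ℝ) • (y₁ + y₂) + (1 : ℝ) • (1 / 2 : ℝ) • (y₁ - y₂) = y₁ := by module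
        rw [this, h1]
      · have : (1 / 2 : ℝ) • (y₁ + y₂) + (-1 : ℝ) • (1 / 2 : ℝ) • (y₁ - y₂) = y₂ := by module
        rw [this, h2]
    · rw [norm_smul, Real.norm_of_nonneg (by norm_num)]
      linarith
  · intro X Y _ _ _ _ _ _ hX h ε hε
    obtain ⟨δ, hδ, -, H⟩ := key hX h ε hε
    exact ⟨δ, hδ, fun y₀ y₁ h1 h2 => H y₀ y₁ h1 h2.le⟩

end Pool.Agent.Results.MP_88a444_an.PredualConvexity
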